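import Pool.Agent.helper90.IV.Spec

set_option autoImplicit false

open scoped BigOperators

namespace Pool.Agent.helper18.IV

open Pool.Agent.helper23.TH Pool.Agent.KS Pool.Agent.IV

noncomputable section

open Classical

theorem ext5 {V : Type} (v w : Fin 5 → V) (h0 : v 0 = w 0) (h1 : v 1 = w 1) (h2 : v 2 = w 2)
    (h3 : v 3 = w 3) (h4 : v 4 = w 4) : v = w := by
  funext i
  fin_cases i
  · exact h0
  · exact h1
  · exact h2
  · exact h3
  · exact h4

/-- conflict of two walks -/
def cnf {V : Type} (v u : Fin 5 → V) : Prop := v 2 = u 2 ∨ (v 1 = u 1 ∧ v 3 = u 3)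

theorem cnf_symm {V : Type} {v u : Fin 5 → V} (h : cnf v u) : cnf u v := by
  rcases h with h | h
  · exact Or.inl h.symm
  · exact Or.inr ⟨h.1.symm, h.2.symm⟩

theorem exMax {V : Type} (S : Finset (Fin 5 → V)) :
    ∃ F : Finset (Fin 5 → V), F ⊆ S ∧ (∀ v ∈ F, ∀ u ∈ F, cnf v u → v = u) ∧
      ∀ v ∈ S, ∃ u ∈ F, cnf v u := by
  obtain ⟨F, hF, hmax⟩ := Finset.exists_max_image
    (S.powerset.filter fun F => ∀ v ∈ F, ∀ u ∈ F, cnf v u → v = u) Finset.card
    ⟨∅, by simp⟩
  rw [Finset.mem_filter, Finset.mem_powerset] at hF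
  refine ⟨F, hF.1, hF.2, ?_⟩
  intro v hv
  by_contra hcon
  push Not at hcon
  have hvF : v ∉ F := fun h => hcon v h (Or.inl rfl)
  have hins : insert v F ∈ S.powerset.filter fun F => ∀ v ∈ F, ∀ u ∈ F, cnf v u → v = u := by
    rw [Finset.mem_filter, Finset.mem_powerset]
    refine ⟨Finset.insert_subset hv hF.1, ?_⟩
    intro a ha b hb hab
    rw [Finset.mem_insert] at ha hb
    rcases ha with ha | ha
    · rcases hb with hb | hb
      · rw [ha, hb]
      · exact absurd (ha ▸ hab) (hcon b hb)
    · rcases hb with hb | hb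
      · exact absurd (hb ▸ (cnf_symm hab)) (hcon a ha)
      · exact hF.2 a ha b hb hab
  have := hmax _ hins
  rw [Finset.card_insert_of_notMem hvF] at this
  omega

theorem GL3 : GL3_stmt := by
  intro V X _ A p q C S hPG hS hne
  have h1 : ∃ mm : V × V, S.card ≤ (Fintype.card V) ^ 2 *
      (S.filter fun v => v 0 = mm.1 ∧ v 4 = mm.2).card := by
    by_contra hcon
    push Not at hcon
    have hsum : S.card = ∑ mm : V × V, (S.filter fun v => v 0 = mm.1 ∧ v 4 = mm.2).card := by
      rw [Finset.card_eq_sum_card_fiberwise (f := fun v : Fin 5 → V => (v 0, v 4))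
        (t := Finset.univ) (by intro _ _; simp)]
      refine Finset.sum_congr rfl fun mm _ => ?_
      congr 1
      ext v
      simp [Prod.ext_iff]
    obtain ⟨v0, hv0⟩ := hne
    have hlt : ∑ mm : V × V, (Fintype.card V) ^ 2 *
        (S.filter fun v => v 0 = mm.1 ∧ v 4 = mm.2).card < ∑ _mm : V × V, S.card :=
      Finset.sum_lt_sum_of_nonempty ⟨(v0 0, v0 4), Finset.mem_univ _⟩ (fun mm _ => hcon mm)
    rw [← Finset.mul_sum, ← hsum, Finset.sum_const, Finset.card_univ, Fintype.card_prod,
      smul_eq_mul, sq] at hlt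
    exact lt_irrefl _ hlt
  obtain ⟨mm, hmm⟩ := h1
  obtain ⟨F, hFS, hF, hcov⟩ := exMax (S.filter fun v => v 0 = mm.1 ∧ v 4 = mm.2)
  have hFm : ∀ v ∈ F, v ∈ S ∧ v 0 = mm.1 ∧ v 4 = mm.2 := by
    intro v hv
    have := hFS hv
    rw [Finset.mem_filter] at this
    exact this
  have hW : ∀ v ∈ S, (∀ i : Fin 4, A (v i.castSucc) (v i.succ)) ∧
      cd A (v 0) (v 2) < C ∧ cd A (v 1) (v 3) < C ∧ cd A (v 2) (v 4) < C := by
    intro v hv
    have := hS hv
    rw [W4, Finset.mem_filter] at this
    exact ⟨this.2.1, this.2.2.2.1, this.2.2.2.2.1, this.2.2.2.2.2⟩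
  refine ⟨F, fun v hv => (hFm v hv).1, ?_, ?_, ?_, ?_⟩
  · intro v hv v' hv'
    have a := (hFm v hv).2
    have b := (hFm v' hv').2
    exact ⟨a.1.trans b.1.symm, a.2.trans b.2.symm⟩
  · intro v hv v' hv' h
    exact hF v hv v' hv' (Or.inl h)
  · intro v hv v' hv' h h'
    exact hF v hv v' hv' (Or.inr ⟨h, h'⟩)
  · have hb : ∀ u ∈ F, ((S.filter fun v => v 0 = mm.1 ∧ v 4 = mm.2).filter
        fun v => cnf v u).card ≤ C ^ 2 + C := by
      intro u hu
      obtain ⟨huS, hu0, hu4⟩ := hFm u hu
      obtain ⟨-, hc1, hc2, hc3⟩ := hW u huS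
      rw [hu0] at hc1
      rw [hu4] at hc3
      have e1 : ((S.filter fun v => v 0 = mm.1 ∧ v 4 = mm.2).filter fun v => cnf v u) ⊆
          ((S.filter fun v => v 0 = mm.1 ∧ v 4 = mm.2).filter fun v => v 2 = u 2) ∪
          ((S.filter fun v => v 0 = mm.1 ∧ v 4 = mm.2).filter fun v => v 1 = u 1 ∧ v 3 = u 3) := by
        intro v hv
        rw [Finset.mem_filter] at hv
        rw [Finset.mem_union]
        rcases hv.2 with h | h
        · exact Or.inl (Finset.mem_filter.2 ⟨hv.1, h⟩)
        · exact Or.inr (Finset.mem_filter.2 ⟨hv.1, h⟩)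
      have e2 : ((S.filter fun v => v 0 = mm.1 ∧ v 4 = mm.2).filter fun v => v 2 = u 2).card ≤
          C ^ 2 := by
        have hle : ((S.filter fun v => v 0 = mm.1 ∧ v 4 = mm.2).filter fun v => v 2 = u 2).card ≤
            ((Finset.univ.filter fun x => A mm.1 x ∧ A (u 2) x) ×ˢ
              (Finset.univ.filter fun x => A (u 2) x ∧ A mm.2 x)).card := by
          refine Finset.card_le_card_of_injOn (fun v => (v 1, v 3)) ?_ ?_
          · intro v hv
            have hv' := hv
            rw [Finset.mem_coe, Finset.mem_filter, Finset.mem_filter] at hv'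
            obtain ⟨⟨hvS, hv0, hv4⟩, hv2⟩ := hv'
            have hA := (hW v hvS).1
            have a0 : A (v 0) (v 1) := hA 0
            have a1 : A (v 1) (v 2) := hA 1
            have a2 : A (v 2) (v 3) := hA 2
            have a3 : A (v 3) (v 4) := hA 3
            rw [hv0] at a0
            rw [hv2] at a1 a2
            rw [hv4] at a3
            rw [Finset.mem_coe, Finset.mem_product, Finset.mem_filter, Finset.mem_filter]
            exact ⟨⟨Finset.mem_univ _, a0, hPG.symm _ _ a1⟩,
              ⟨Finset.mem_univ _, a2, hPG.symm _ _ a3⟩⟩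
          · intro v hv w hw hvw
            rw [Finset.mem_coe, Finset.mem_filter, Finset.mem_filter] at hv hw
            obtain ⟨⟨_, hv0, hv4⟩, hv2⟩ := hv
            obtain ⟨⟨_, hw0, hw4⟩, hw2⟩ := hw
            have hp := Prod.ext_iff.1 hvw
            exact ext5 v w (hv0.trans hw0.symm) hp.1 (hv2.trans hw2.symm) hp.2
              (hv4.trans hw4.symm)
        rw [Finset.card_product] at hle
        have k1 : (Finset.univ.filter fun x => A mm.1 x ∧ A (u 2) x).card ≤ C := hc1.le
        have k2 : (Finset.univ.filter fun x => A (u 2) x ∧ A mm.2 x).card ≤ C := hc3.le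
        calc _ ≤ _ := hle
          _ ≤ C * C := Nat.mul_le_mul k1 k2
          _ = C ^ 2 := (sq C).symm
      have e3 : ((S.filter fun v => v 0 = mm.1 ∧ v 4 = mm.2).filter
          fun v => v 1 = u 1 ∧ v 3 = u 3).card ≤ C := by
        have hle : ((S.filter fun v => v 0 = mm.1 ∧ v 4 = mm.2).filter
            fun v => v 1 = u 1 ∧ v 3 = u 3).card ≤
            (Finset.univ.filter fun x => A (u 1) x ∧ A (u 3) x).card := by
          refine Finset.card_le_card_of_injOn (fun v => v 2) ?_ ?_
          · intro v hv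
            have hv' := hv
            rw [Finset.mem_coe, Finset.mem_filter, Finset.mem_filter] at hv'
            obtain ⟨⟨hvS, hv0, hv4⟩, hv1, hv3⟩ := hv'
            have hA := (hW v hvS).1
            have a1 : A (v 1) (v 2) := hA 1
            have a2 : A (v 2) (v 3) := hA 2
            rw [hv1] at a1
            rw [hv3] at a2
            rw [Finset.mem_coe, Finset.mem_filter]
            exact ⟨Finset.mem_univ _, a1, hPG.symm _ _ a2⟩
          · intro v hv w hw hvw
            rw [Finset.mem_coe, Finset.mem_filter, Finset.mem_filter] at hv hw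
            obtain ⟨⟨_, hv0, hv4⟩, hv1, hv3⟩ := hv
            obtain ⟨⟨_, hw0, hw4⟩, hw1, hw3⟩ := hw
            exact ext5 v w (hv0.trans hw0.symm) (hv1.trans hw1.symm) hvw (hv3.trans hw3.symm)
              (hv4.trans hw4.symm)
        exact hle.trans hc2.le
      calc _ ≤ _ := Finset.card_le_card e1
        _ ≤ _ := Finset.card_union_le _ _
        _ ≤ C ^ 2 + C := Nat.add_le_add e2 e3
    have hS' : (S.filter fun v => v 0 = mm.1 ∧ v 4 = mm.2).card ≤ F.card * (C ^ 2 + C) := by
      calc (S.filter fun v => v 0 = mm.1 ∧ v 4 = mm.2).card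
          ≤ (F.biUnion fun u => (S.filter fun v => v 0 = mm.1 ∧ v 4 = mm.2).filter
              fun v => cnf v u).card := by
            refine Finset.card_le_card ?_
            intro v hv
            obtain ⟨u, hu, huv⟩ := hcov v hv
            rw [Finset.mem_biUnion]
            exact ⟨u, hu, Finset.mem_filter.2 ⟨hv, huv⟩⟩
        _ ≤ F.card * (C ^ 2 + C) := Finset.card_biUnion_le_card_mul _ _ _ hb
    calc S.card ≤ _ := hmm
      _ ≤ (Fintype.card V) ^ 2 * (F.card * (C ^ 2 + C)) := Nat.mul_le_mul_left _ hS'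
      _ = (C ^ 2 + C) * (Fintype.card V) ^ 2 * F.card := by ring

end

end Pool.Agent.helper18.IV
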